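import Mathlib

/-!
# Flarbs need `Ω(n log n)` pointer changes

We disprove Q1 of `MP_5c307f_lc`: for every `n ≥ 2` there is a sequence of `n` flarbs from the
empty tree whose total cost (number of parent/child relationships that change) is at least
`(n log₂ n) / 8`.  So the amortized cost of a flarb is not `O(1)`, and the known
upper bound `O(log n)` is tight up to a constant factor.

Idea.  Number the nodes by their time of insertion; this is also the in-order.  Call the nodes of the
rightmost path of the left subtree of `t` the children of `t`.  A flarb makes all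
nodes of `S ∪ {r}` top-level nodes, and each of them loses an initial segment of its list of
children; a node which loses a child costs at least one pointer change.  The binary counter
schedule: when the node `t = m 2 ^ j` (`m` odd) is inserted, it takes the preceding `2 ^ j - 1` nodes
as its children, and it loses exactly one of them in each of the next `2 ^ j - 1` flarbs.
At a typical time about half of the `log₂ n` levels are active.
-/

set_option autoImplicit false

namespace Pool.Agent.Results.MP_5c307f_lc.FlarbLowerBound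

/-- Finite binary trees whose nodes carry natural numbers (their names). -/
inductive BT : Type
  | nil : BT
  | node : BT → ℕ → BT → BT

/-- The root node, if the tree is nonempty. -/
def BT.root : BT → Option ℕ
  | .nil => none
  | .node _ a _ => some a

/-- The nodes of a tree in in-order. -/
def BT.inorder : BT → List ℕ
  | .nil => []
  | .node l a r => l.inorder ++ a :: r.inorder

/-- The parent/child relationships of a tree: `(p, false, c)` means that `c` is the left child
of `p`, and `(p, true, c)` means that `c` is the right child of `p`. -/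
def BT.edges : BT → Finset (ℕ × Bool × ℕ)
  | .nil => ∅
  | .node l a r =>
      l.root.toFinset.image (fun b => (a, false, b)) ∪ r.root.toFinset.image (fun b => (a, true, b)) ∪
        (l.edges ∪ r.edges)

/-- `S` is an anchored subtree of `T`: a set of nodes of `T` which contains the root of `T` (if any)
and is connected, i.e. closed under taking parents. -/
def Anchored (T : BT) (S : Finset ℕ) : Prop :=
  (∀ x ∈ S, x ∈ T.inorder) ∧ (∀ a ∈ T.root, a ∈ S) ∧
    ∀ (p : ℕ) (s : Bool) (c : ℕ), (p, s, c) ∈ T.edges → c ∈ S → p ∈ S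

/-- `rearr S T k`: rearrange the nodes of the top part `S` of `T` into a rightmost path, keeping the
in-order and the subtrees hanging off `S`; the continuation `k` receives the last hanging
subtree (the one that comes after all nodes of `S` in in-order). -/
def rearr (S : Finset ℕ) : BT → (BT → BT) → BT
  | .nil, k => k .nil
  | .node l a r, k =>
      if a ∈ S then rearr S l (fun G => .node G a (rearr S r k)) else k (.node l a r)

/-- The flarb of `S` on `T`, the added root being called `r`. -/
def flarb (S : Finset ℕ) (T : BT) (r : ℕ) : BT := rearr S T (fun G => .node G r .nil)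

/-- The number of parent/child relationships that change. -/
def cost (T T' : BT) : ℕ := (symmDiff T.edges T'.edges).card

/-- `FlarbSeq n T c`: there is a sequence of `n` flarbs from the empty tree to `T` with total
cost `c`; the node added by the `i`-th flarb is called `i` (counting from `0`). -/
inductive FlarbSeq : ℕ → BT → ℕ → Prop
  | empty : FlarbSeq 0 .nil 0
  | step {n : ℕ} {T : BT} {c : ℕ} (S : Finset ℕ) (h : FlarbSeq n T c) (hS : Anchored T S) :
      FlarbSeq (n + 1) (flarb S T n) (c + cost T (flarb S T n))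

/-! ### Sanity checks on the definition of a flarb

The following three facts characterise the flarb of an anchored subtree: the in-order is kept and
the new node comes last, the nodes of `S` together with the new node form the rightmost path, and
the children of all other nodes do not change (the hanging subtrees keep their shape). -/

theorem inorder_rearr (S : Finset ℕ) (T : BT) (k : BT → BT) (rest : List ℕ)
    (hk : ∀ G, (k G).inorder = G.inorder ++ rest) : (rearr S T k).inorder = T.inorder ++ rest := by
  induction T generalizing k rest with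
  | nil => exact hk _
  | node l a r ihl ihr =>
    simp only [rearr]
    split_ifs with h
    · have h1 := ihr k rest hk
      rw [ihl (fun G => BT.node G a (rearr S r k)) (a :: (r.inorder ++ rest)) (fun G => by
        simp only [BT.inorder, h1])]
      simp [BT.inorder]
    · exact hk _

theorem inorder_flarb (S : Finset ℕ) (T : BT) (r : ℕ) : (flarb S T r).inorder = T.inorder ++ [r] :=
  inorder_rearr S T _ [r] (fun _ => rfl)

/-- The nodes of the rightmost path. -/
def BT.rightPath : BT → List ℕ
  | .nil => []
  | .node _ a r => a :: r.rightPath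

theorem root_edges (l r : BT) (a : ℕ) (S : Finset ℕ)
    (hc : ∀ (p : ℕ) (s : Bool) (c : ℕ), (p, s, c) ∈ (BT.node l a r).edges → c ∈ S → p ∈ S) :
    (∀ (p : ℕ) (s : Bool) (c : ℕ), (p, s, c) ∈ l.edges → c ∈ S → p ∈ S) ∧
    (∀ (p : ℕ) (s : Bool) (c : ℕ), (p, s, c) ∈ r.edges → c ∈ S → p ∈ S) ∧
    (∀ b, b ∈ l.root → b ∈ S → a ∈ S) ∧ (∀ b, b ∈ r.root → b ∈ S → a ∈ S) := by
  have e : ∀ (p : ℕ) (s : Bool) (c : ℕ), (p, s, c) ∈ (BT.node l a r).edges ↔
      (p = a ∧ s = false ∧ c ∈ l.root) ∨ (p = a ∧ s = true ∧ c ∈ r.root) ∨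
        (p, s, c) ∈ l.edges ∨ (p, s, c) ∈ r.edges := by
    intro p s c
    simp only [BT.edges, Finset.mem_union, Finset.mem_image, Option.mem_toFinset, Prod.mk.injEq]
    constructor
    · rintro ((⟨b, hb, rfl, rfl, rfl⟩ | ⟨b, hb, rfl, rfl, rfl⟩) | h | h)
      · exact Or.inl ⟨rfl, rfl, hb⟩
      · exact Or.inr (Or.inl ⟨rfl, rfl, hb⟩)
      · exact Or.inr (Or.inr (Or.inl h))
      · exact Or.inr (Or.inr (Or.inr h))
    · rintro (⟨rfl, rfl, h⟩ | ⟨rfl, rfl, h⟩ | h | h)
      · exact Or.inl (Or.inl ⟨c, h, rfl, rfl, rfl⟩)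
      · exact Or.inl (Or.inr ⟨c, h, rfl, rfl, rfl⟩)
      · exact Or.inr (Or.inl h)
      · exact Or.inr (Or.inr h)
  refine ⟨fun p s c h => hc p s c ((e p s c).2 (Or.inr (Or.inr (Or.inl h)))),
    fun p s c h => hc p s c ((e p s c).2 (Or.inr (Or.inr (Or.inr h)))),
    fun b h => hc a false b ((e a false b).2 (Or.inl ⟨rfl, rfl, h⟩)),
    fun b h => hc a true b ((e a true b).2 (Or.inr (Or.inl ⟨rfl, rfl, h⟩)))⟩

theorem notMem_of_root (T : BT) (S : Finset ℕ)
    (hc : ∀ (p : ℕ) (s : Bool) (c : ℕ), (p, s, c) ∈ T.edges → c ∈ S → p ∈ S)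
    (hr : ∀ b, b ∈ T.root → b ∉ S) : ∀ x ∈ T.inorder, x ∉ S := by
  induction T with
  | nil => simp [BT.inorder]
  | node l a r ihl ihr =>
    obtain ⟨h1, h2, h3, h4⟩ := root_edges l r a S hc
    have ha : a ∉ S := hr a rfl
    intro x hx
    simp only [BT.inorder, List.mem_append, List.mem_cons] at hx
    rcases hx with hx | rfl | hx
    · exact ihl h1 (fun b hb hbS => ha (h3 b hb hbS)) x hx
    · exact ha
    · exact ihr h2 (fun b hb hbS => ha (h4 b hb hbS)) x hx

theorem rightPath_rearr (S : Finset ℕ) (T : BT) (k : BT → BT) (rp : List ℕ)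
    (hc : ∀ (p : ℕ) (s : Bool) (c : ℕ), (p, s, c) ∈ T.edges → c ∈ S → p ∈ S)
    (hk : ∀ G, (k G).rightPath = rp) :
    (rearr S T k).rightPath = T.inorder.filter (· ∈ S) ++ rp := by
  induction T generalizing k rp with
  | nil => exact hk _
  | node l a r ihl ihr =>
    obtain ⟨h1, h2, h3, h4⟩ := root_edges l r a S hc
    simp only [rearr]
    split_ifs with h
    · rw [ihl (fun G => BT.node G a (rearr S r k)) (a :: (r.inorder.filter (· ∈ S) ++ rp)) h1
        (fun G => by simp only [BT.rightPath]; rw [ihr k rp h2 hk])]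
      simp [BT.inorder, h]
    · rw [hk]
      have h5 := notMem_of_root (BT.node l a r) S hc (fun b hb => by
        simp only [BT.root, Option.mem_def, Option.some.injEq] at hb
        exact hb ▸ h)
      have h6 : (BT.node l a r).inorder.filter (· ∈ S) = [] := by
        rw [List.filter_eq_nil_iff]
        intro x hx
        simpa using h5 x hx
      rw [h6, List.nil_append]

/-- The rightmost path after a flarb consists of the nodes of `S` in in-order and the new node. -/
theorem rightPath_flarb (S : Finset ℕ) (T : BT) (r : ℕ) (h : Anchored T S) :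
    (flarb S T r).rightPath = T.inorder.filter (· ∈ S) ++ [r] :=
  rightPath_rearr S T _ [r] h.2.2 (fun _ => rfl)

theorem edges_rearr (S : Finset ℕ) (T : BT) (k : BT → BT) (p c : ℕ) (s : Bool) (X : Prop)
    (hp : p ∉ S) (hk : ∀ G, (p, s, c) ∈ (k G).edges ↔ (p, s, c) ∈ G.edges ∨ X) :
    (p, s, c) ∈ (rearr S T k).edges ↔ (p, s, c) ∈ T.edges ∨ X := by
  induction T generalizing k X with
  | nil => exact hk _
  | node l a r ihl ihr =>
    simp only [rearr]
    split_ifs with h
    · have hpa : p ≠ a := fun e => hp (e ▸ h)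
      rw [ihl (fun G => BT.node G a (rearr S r k)) ((p, s, c) ∈ r.edges ∨ X) (fun G => by
        simp only [BT.edges, Finset.mem_union, Finset.mem_image, Prod.mk.injEq, hpa.symm, false_and,
          and_false, exists_false, false_or]
        rw [ihr k X hk])]
      simp only [BT.edges, Finset.mem_union, Finset.mem_image, Prod.mk.injEq, hpa.symm, false_and,
          and_false, exists_false, false_or, or_assoc]
    · exact hk _

/-- The children of a node outside `S ∪ {r}` do not change. -/
theorem edges_flarb (S : Finset ℕ) (T : BT) (r p c : ℕ) (s : Bool) (hp : p ∉ S) (hpr : p ≠ r) :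
    (p, s, c) ∈ (flarb S T r).edges ↔ (p, s, c) ∈ T.edges := by
  have := edges_rearr S T (fun G => BT.node G r BT.nil) p c s False hp (fun G => by
    simp [BT.edges, hpr.symm, BT.root])
  rw [or_false] at this
  exact this

/-! ### Depth-two forests -/

/-- rightmost path without hanging subtrees -/
def comb : List ℕ → BT
  | [] => .nil
  | c :: cs => .node .nil c (comb cs)

/-- rightmost path, each node `t` having a comb as left subtree -/
def build : List (List ℕ × ℕ) → BT
  | [] => .nil
  | (cs, t) :: L => .node (comb cs) t (build L)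

/-- items without children -/
def leafs (ds : List ℕ) : List (List ℕ × ℕ) := ds.map (fun d => ([], d))

/-- all labels, in in-order -/
def labs : List (List ℕ × ℕ) → List ℕ
  | [] => []
  | (cs, t) :: L => cs ++ t :: labs L

/-- every item loses its first child, which becomes an item of its own -/
def shed : List (List ℕ × ℕ) → List (List ℕ × ℕ)
  | [] => []
  | ([], t) :: L => ([], t) :: shed L
  | (c :: cs, t) :: L => ([], c) :: (cs, t) :: shed L

/-- number of items with a nonempty list of children -/
def act : List (List ℕ × ℕ) → ℕ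
  | [] => 0
  | ([], _) :: L => act L
  | (_ :: _, _) :: L => act L + 1

/-- the anchored set: all top labels and their first children -/
def top : List (List ℕ × ℕ) → Finset ℕ
  | [] => ∅
  | ([], t) :: L => insert t (top L)
  | (c :: _, t) :: L => insert c (insert t (top L))

theorem labs_append (L L' : List (List ℕ × ℕ)) : labs (L ++ L') = labs L ++ labs L' := by
  induction L with
  | nil => rfl
  | cons x L ih => obtain ⟨cs, t⟩ := x; simp [labs, ih]

theorem labs_leafs (ds : List ℕ) : labs (leafs ds) = ds := by
  induction ds with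
  | nil => rfl
  | cons d ds ih => simpa [leafs, labs] using ih

theorem labs_shed (L : List (List ℕ × ℕ)) : labs (shed L) = labs L := by
  induction L with
  | nil => rfl
  | cons x L ih =>
    obtain ⟨cs, t⟩ := x
    rcases cs with _ | ⟨c, cs⟩ <;> simp [shed, labs, ih]

theorem shed_append (L L' : List (List ℕ × ℕ)) : shed (L ++ L') = shed L ++ shed L' := by
  induction L with
  | nil => rfl
  | cons x L ih =>
    obtain ⟨cs, t⟩ := x
    rcases cs with _ | ⟨c, cs⟩ <;> simp [shed, ih]

theorem act_append (L L' : List (List ℕ × ℕ)) : act (L ++ L') = act L + act L' := by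
  induction L with
  | nil => simp [act]
  | cons x L ih =>
    obtain ⟨cs, t⟩ := x
    rcases cs with _ | ⟨c, cs⟩
    · simp [act, ih]
    · simp only [List.cons_append, act, ih]; omega

theorem shed_leafs (ds : List ℕ) : shed (leafs ds) = leafs ds := by
  induction ds with
  | nil => rfl
  | cons d ds ih => simpa [leafs, shed] using ih

theorem build_leafs (ds : List ℕ) : build (leafs ds) = comb ds := by
  induction ds with
  | nil => rfl
  | cons d ds ih => simp only [leafs, List.map_cons, build, comb]; rw [← ih]; rfl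

theorem inorder_comb (cs : List ℕ) : (comb cs).inorder = cs := by
  induction cs with
  | nil => rfl
  | cons c cs ih => simp [comb, BT.inorder, ih]

theorem inorder_build (L : List (List ℕ × ℕ)) : (build L).inorder = labs L := by
  induction L with
  | nil => rfl
  | cons x L ih => obtain ⟨cs, t⟩ := x; simp [build, BT.inorder, inorder_comb, labs, ih]

theorem top_subset (L : List (List ℕ × ℕ)) : ∀ x ∈ top L, x ∈ labs L := by
  induction L with
  | nil => simp [top]
  | cons x L ih =>
    obtain ⟨cs, t⟩ := x
    intro y hy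
    rcases cs with _ | ⟨c, cs⟩
    · simp only [top, Finset.mem_insert] at hy
      simp only [labs, List.nil_append, List.mem_cons]
      rcases hy with h | h
      · exact Or.inl h
      · exact Or.inr (ih y h)
    · simp only [top, Finset.mem_insert] at hy
      simp only [labs, List.cons_append, List.mem_cons, List.mem_append]
      rcases hy with h | h | h
      · exact Or.inl h
      · exact Or.inr (Or.inr (Or.inl h))
      · exact Or.inr (Or.inr (Or.inr (ih y h)))

theorem rearr_comb_notMem (S : Finset ℕ) (cs : List ℕ) (h : ∀ c ∈ cs, c ∉ S) (k : BT → BT) :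
    rearr S (comb cs) k = k (comb cs) := by
  rcases cs with _ | ⟨c, cs⟩
  · rfl
  · simp only [comb, rearr]
    rw [if_neg (h c (by simp))]

/-- The effect of a flarb on a depth-two forest, in general position. -/
theorem rearr_build (S : Finset ℕ) (L : List (List ℕ × ℕ)) (ds : List ℕ) (r : ℕ)
    (hL : ∀ cs t, (cs, t) ∈ L → t ∈ S ∧ (∀ c cs', cs = c :: cs' → c ∈ S ∧ ∀ x ∈ cs', x ∉ S))
    (hds : ∀ d ∈ ds, d ∉ S) :
    rearr S (build (L ++ leafs ds)) (fun G => .node G r .nil) = build (shed L ++ [(ds, r)]) := by
  induction L with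
  | nil =>
    simp only [List.nil_append, build_leafs, shed, build]
    exact rearr_comb_notMem S ds hds _
  | cons x L ih =>
    obtain ⟨cs, t⟩ := x
    have ih' := ih (fun cs' t' h => hL cs' t' (List.mem_cons_of_mem _ h))
    obtain ⟨ht, hcs⟩ := hL cs t (by simp)
    rcases cs with _ | ⟨c, cs⟩
    · simp only [List.cons_append, build, comb, rearr, if_pos ht, shed]
      rw [ih']
    · obtain ⟨hc, hcs'⟩ := hcs c cs rfl
      simp only [List.cons_append, build, comb, rearr, if_pos ht, if_pos hc, shed]
      rw [rearr_comb_notMem S cs hcs', ih']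


theorem fst_snd_mem_labs {L : List (List ℕ × ℕ)} {cs : List ℕ} {t : ℕ} (h : (cs, t) ∈ L) :
    (∀ x ∈ cs, x ∈ labs L) ∧ t ∈ labs L := by
  induction L with
  | nil => simp at h
  | cons y L ih =>
    obtain ⟨cs', t'⟩ := y
    rcases List.mem_cons.mp h with h | h
    · obtain ⟨rfl, rfl⟩ := Prod.mk.inj h
      exact ⟨fun x hx => by simp [labs, hx], by simp [labs]⟩
    · obtain ⟨h1, h2⟩ := ih h
      exact ⟨fun x hx => by simp [labs, h1 x hx], by simp [labs, h2]⟩

theorem top_spec (L : List (List ℕ × ℕ)) (hn : (labs L).Nodup) :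
    ∀ cs t, (cs, t) ∈ L → t ∈ top L ∧
      (∀ c cs', cs = c :: cs' → c ∈ top L ∧ ∀ x ∈ cs', x ∉ top L) := by
  induction L with
  | nil => simp
  | cons y L ih =>
    obtain ⟨cs₀, t₀⟩ := y
    have hnL : (labs L).Nodup := by
      simp only [labs] at hn
      exact (List.nodup_cons.mp (List.Nodup.of_append_right hn)).2
    intro cs t h
    rcases List.mem_cons.mp h with h | h
    · obtain ⟨rfl, rfl⟩ := Prod.mk.inj h
      rcases cs with _ | ⟨c₀, cs₀⟩
      · exact ⟨by simp [top], fun c cs' h => by simp at h⟩
      · refine ⟨by simp [top], fun c cs' h => ?_⟩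
        obtain ⟨rfl, rfl⟩ := List.cons.inj h
        refine ⟨by simp [top], fun x hx => ?_⟩
        simp only [labs, List.cons_append, List.nodup_cons, List.mem_append, List.mem_cons,
          List.nodup_append, not_or] at hn
        obtain ⟨⟨h1, h2, h3⟩, h4, ⟨h5, h6⟩, h7⟩ := hn
        simp only [top, Finset.mem_insert, not_or]
        refine ⟨fun e => h1 (e ▸ hx), fun e => ?_, fun e => ?_⟩
        · exact h7 x hx t (by simp) e
        · exact h7 x hx x (by simp [top_subset L x e]) rfl
    · obtain ⟨h1, h2⟩ := ih hnL cs t h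
      have hsub : ∀ z ∈ top L, z ∈ top ((cs₀, t₀) :: L) := by
        intro z hz
        rcases cs₀ with _ | ⟨c₀, cs₀⟩ <;> simp [top, hz]
      refine ⟨hsub t h1, fun c cs' e => ?_⟩
      obtain ⟨h3, h4⟩ := h2 c cs' e
      refine ⟨hsub c h3, fun x hx => ?_⟩
      have hxl : x ∈ labs L := (fst_snd_mem_labs h).1 x (by rw [e]; simp [hx])
      rcases cs₀ with _ | ⟨c₀, cs₀⟩
      · simp only [labs, List.nil_append, List.nodup_cons] at hn
        simp only [top, Finset.mem_insert, not_or]
        exact ⟨fun e => hn.1 (e ▸ hxl), h4 x hx⟩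
      · simp only [labs, List.cons_append, List.nodup_cons, List.mem_append, List.mem_cons,
          List.nodup_append, not_or] at hn
        obtain ⟨⟨h5, h6, h7⟩, h8, ⟨h9, h10⟩, h11⟩ := hn
        simp only [top, Finset.mem_insert, not_or]
        exact ⟨fun e => h7 (e ▸ hxl), fun e => h9 (e ▸ hxl), h4 x hx⟩

theorem root_mem (T : BT) (a : ℕ) (h : a ∈ T.root) : a ∈ T.inorder := by
  cases T with
  | nil => simp [BT.root] at h
  | node l b r =>
    simp only [BT.root, Option.mem_def, Option.some.injEq] at h
    simp [BT.inorder, h]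

theorem mem_edges_node (l r : BT) (a p c : ℕ) (s : Bool) :
    (p, s, c) ∈ (BT.node l a r).edges ↔
      (p = a ∧ s = false ∧ c ∈ l.root) ∨ (p = a ∧ s = true ∧ c ∈ r.root) ∨
        (p, s, c) ∈ l.edges ∨ (p, s, c) ∈ r.edges := by
  simp only [BT.edges, Finset.mem_union, Finset.mem_image, Option.mem_toFinset, Prod.mk.injEq]
  constructor
  · rintro ((⟨b, hb, rfl, rfl, rfl⟩ | ⟨b, hb, rfl, rfl, rfl⟩) | h | h)
    · exact Or.inl ⟨rfl, rfl, hb⟩
    · exact Or.inr (Or.inl ⟨rfl, rfl, hb⟩)
    · exact Or.inr (Or.inr (Or.inl h))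
    · exact Or.inr (Or.inr (Or.inr h))
  · rintro (⟨rfl, rfl, h⟩ | ⟨rfl, rfl, h⟩ | h | h)
    · exact Or.inl (Or.inl ⟨c, h, rfl, rfl, rfl⟩)
    · exact Or.inl (Or.inr ⟨c, h, rfl, rfl, rfl⟩)
    · exact Or.inr (Or.inl h)
    · exact Or.inr (Or.inr h)

theorem edges_mem (T : BT) (p c : ℕ) (s : Bool) (h : (p, s, c) ∈ T.edges) :
    p ∈ T.inorder ∧ c ∈ T.inorder := by
  induction T with
  | nil => simp [BT.edges] at h
  | node l a r ihl ihr =>
    rw [mem_edges_node] at h
    simp only [BT.inorder, List.mem_append, List.mem_cons]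
    rcases h with ⟨rfl, -, h⟩ | ⟨rfl, -, h⟩ | h | h
    · exact ⟨Or.inr (Or.inl rfl), Or.inl (root_mem _ _ h)⟩
    · exact ⟨Or.inr (Or.inl rfl), Or.inr (Or.inr (root_mem _ _ h))⟩
    · exact ⟨Or.inl (ihl h).1, Or.inl (ihl h).2⟩
    · exact ⟨Or.inr (Or.inr (ihr h).1), Or.inr (Or.inr (ihr h).2)⟩

theorem edges_comb (d : ℕ) (cs : List ℕ) (p c : ℕ) (s : Bool) (h : (p, s, c) ∈ (comb (d :: cs)).edges) :
    c ∈ cs ∧ s = true := by
  induction cs generalizing d with
  | nil =>
    simp only [comb] at h
    rw [mem_edges_node] at h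
    simp [BT.root, BT.edges] at h
  | cons e cs ih =>
    simp only [comb] at h
    rw [mem_edges_node] at h
    rcases h with ⟨rfl, -, h⟩ | ⟨rfl, h', h⟩ | h | h
    · simp [BT.root] at h
    · simp only [BT.root, Option.mem_def, Option.some.injEq] at h
      exact ⟨by simp [h], h'⟩
    · simp [BT.edges] at h
    · obtain ⟨h1, h2⟩ := ih e h
      exact ⟨by simp [h1], h2⟩

theorem root_comb (cs : List ℕ) : (comb cs).root = cs.head? := by
  cases cs <;> rfl

theorem edges_comb' (cs : List ℕ) (p c : ℕ) (s : Bool) (h : (p, s, c) ∈ (comb cs).edges) :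
    c ∈ cs.tail ∧ s = true := by
  cases cs with
  | nil => simp [comb, BT.edges] at h
  | cons d cs => exact edges_comb d cs p c s h

theorem left_edges_build (L : List (List ℕ × ℕ)) (p c : ℕ) :
    (p, false, c) ∈ (build L).edges ↔ ∃ cs, (c :: cs, p) ∈ L := by
  induction L with
  | nil => simp [build, BT.edges]
  | cons x L ih =>
    obtain ⟨cs, t⟩ := x
    simp only [build]
    rw [mem_edges_node, ih, root_comb]
    constructor
    · rintro (⟨rfl, -, h⟩ | ⟨-, h, -⟩ | h | ⟨cs', h⟩)
      · rcases cs with _ | ⟨d, cs⟩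
        · simp at h
        · simp only [List.head?_cons, Option.mem_def, Option.some.injEq] at h
          exact ⟨cs, by simp [h]⟩
      · simp at h
      · have := (edges_comb' cs p c false h).2
        simp at this
      · exact ⟨cs', List.mem_cons_of_mem _ h⟩
    · rintro ⟨cs', h⟩
      rcases List.mem_cons.mp h with h | h
      · obtain ⟨rfl, rfl⟩ := Prod.mk.inj h
        exact Or.inl ⟨rfl, rfl, by simp⟩
      · exact Or.inr (Or.inr (Or.inr ⟨cs', h⟩))

theorem closed_build (S : Finset ℕ) (L : List (List ℕ × ℕ)) (ds : List ℕ)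
    (hL : ∀ cs t, (cs, t) ∈ L → t ∈ S ∧ (∀ c cs', cs = c :: cs' → c ∈ S ∧ ∀ x ∈ cs', x ∉ S))
    (hds : ∀ d ∈ ds, d ∉ S) (p c : ℕ) (s : Bool) (h : (p, s, c) ∈ (build (L ++ leafs ds)).edges)
    (hc : c ∈ S) : p ∈ S := by
  induction L with
  | nil =>
    rw [List.nil_append, build_leafs] at h
    exact absurd hc (hds c (List.mem_of_mem_tail (edges_comb' ds p c s h).1))
  | cons x L ih =>
    obtain ⟨cs, t⟩ := x
    simp only [List.cons_append, build] at h
    rw [mem_edges_node] at h
    obtain ⟨ht, hcs⟩ := hL cs t (by simp)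
    rcases h with ⟨rfl, -, -⟩ | ⟨rfl, -, -⟩ | h | h
    · exact ht
    · exact ht
    · exfalso
      have h1 := (edges_comb' cs p c s h).1
      rcases cs with _ | ⟨d, cs⟩
      · simp at h1
      · exact (hcs d cs rfl).2 c h1 hc
    · exact ih (fun cs' t' h => hL cs' t' (List.mem_cons_of_mem _ h)) h

theorem shed_lost (L : List (List ℕ × ℕ)) (hn : (labs L).Nodup) (c t : ℕ) (cs cs'' : List ℕ)
    (h : (c :: cs, t) ∈ L) : (c :: cs'', t) ∉ shed L := by
  induction L with
  | nil => simp at h
  | cons y L ih =>
    obtain ⟨cs₀, t₀⟩ := y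
    have hnL : (labs L).Nodup := by
      simp only [labs] at hn
      exact (List.nodup_cons.mp (List.Nodup.of_append_right hn)).2
    have ht₀ : t₀ ∉ labs L := by
      simp only [labs] at hn
      exact (List.nodup_cons.mp (List.Nodup.of_append_right hn)).1
    intro h'
    rcases List.mem_cons.mp h with h0 | h0
    · obtain ⟨rfl, rfl⟩ := Prod.mk.inj h0
      simp only [shed, List.mem_cons] at h'
      rcases h' with h' | h' | h'
      · simp at h'
      · obtain ⟨h1, -⟩ := Prod.mk.inj h'
        rw [← h1] at hn
        simp [labs] at hn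
      · have := (fst_snd_mem_labs h').2
        rw [labs_shed] at this
        exact ht₀ this
    · have htl : t ∈ labs L := (fst_snd_mem_labs h0).2
      rcases cs₀ with _ | ⟨c₀, cs₀⟩
      · simp only [shed, List.mem_cons] at h'
        rcases h' with h' | h'
        · simp at h'
        · exact ih hnL h0 h'
      · simp only [shed, List.mem_cons] at h'
        rcases h' with h' | h' | h'
        · simp at h'
        · obtain ⟨-, h2⟩ := Prod.mk.inj h'
          exact ht₀ (h2 ▸ htl)
        · exact ih hnL h0 h'

/-- the left-child relationships that are lost -/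
def lost : List (List ℕ × ℕ) → Finset (ℕ × Bool × ℕ)
  | [] => ∅
  | ([], _) :: L => lost L
  | (c :: _, t) :: L => insert (t, false, c) (lost L)

theorem mem_lost (L : List (List ℕ × ℕ)) (x : ℕ × Bool × ℕ) (h : x ∈ lost L) :
    ∃ c t cs, x = (t, false, c) ∧ (c :: cs, t) ∈ L := by
  induction L with
  | nil => simp [lost] at h
  | cons y L ih =>
    obtain ⟨cs₀, t₀⟩ := y
    rcases cs₀ with _ | ⟨c₀, cs₀⟩
    · obtain ⟨c, t, cs, h1, h2⟩ := ih (by simpa [lost] using h)
      exact ⟨c, t, cs, h1, List.mem_cons_of_mem _ h2⟩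
    · simp only [lost, Finset.mem_insert] at h
      rcases h with h | h
      · exact ⟨c₀, t₀, cs₀, h, by simp⟩
      · obtain ⟨c, t, cs, h1, h2⟩ := ih h
        exact ⟨c, t, cs, h1, List.mem_cons_of_mem _ h2⟩

theorem card_lost (L : List (List ℕ × ℕ)) (hn : (labs L).Nodup) : (lost L).card = act L := by
  induction L with
  | nil => rfl
  | cons y L ih =>
    obtain ⟨cs₀, t₀⟩ := y
    have hnL : (labs L).Nodup := by
      simp only [labs] at hn
      exact (List.nodup_cons.mp (List.Nodup.of_append_right hn)).2
    have ht₀ : t₀ ∉ labs L := by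
      simp only [labs] at hn
      exact (List.nodup_cons.mp (List.Nodup.of_append_right hn)).1
    rcases cs₀ with _ | ⟨c₀, cs₀⟩
    · simpa [lost, act] using ih hnL
    · simp only [lost, act]
      rw [Finset.card_insert_of_notMem, ih hnL]
      intro h
      obtain ⟨c, t, cs, h1, h2⟩ := mem_lost L _ h
      simp only [Prod.mk.injEq, true_and] at h1
      have := (fst_snd_mem_labs h2).2
      rw [← h1.1] at this
      exact ht₀ this

theorem gained (M : List (List ℕ × ℕ)) (hM : M ≠ []) (ds : List ℕ) (r : ℕ) :
    ∃ x, (x, true, r) ∈ (build (M ++ [(ds, r)])).edges := by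
  induction M with
  | nil => exact absurd rfl hM
  | cons y M ih =>
    obtain ⟨cs₀, t₀⟩ := y
    rcases M with _ | ⟨z, M⟩
    · refine ⟨t₀, ?_⟩
      simp only [List.cons_append, List.nil_append, build]
      rw [mem_edges_node]
      exact Or.inr (Or.inl ⟨rfl, rfl, by simp [BT.root]⟩)
    · obtain ⟨x, hx⟩ := ih (by simp)
      refine ⟨x, ?_⟩
      rw [List.cons_append]
      simp only [build]
      rw [mem_edges_node]
      exact Or.inr (Or.inr (Or.inr hx))

theorem shed_ne_nil (L : List (List ℕ × ℕ)) (h : L ≠ []) : shed L ≠ [] := by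
  rcases L with _ | ⟨⟨cs, t⟩, L⟩
  · exact absurd rfl h
  · rcases cs with _ | ⟨c, cs⟩ <;> simp [shed]

/-- One flarb on a depth-two forest. -/
theorem step_lemma (L : List (List ℕ × ℕ)) (ds : List ℕ) (a c : ℕ)
    (hlab : labs (L ++ leafs ds) = List.range a) (hL : L ≠ [])
    (h : FlarbSeq a (build (L ++ leafs ds)) c) :
    ∃ c', c + 1 + act L ≤ c' ∧ FlarbSeq (a + 1) (build (shed L ++ [(ds, a)])) c' := by
  have hnod : (labs (L ++ leafs ds)).Nodup := by rw [hlab]; exact List.nodup_range
  rw [labs_append, labs_leafs] at hnod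
  have hnL : (labs L).Nodup := List.Nodup.of_append_left hnod
  have hspec := top_spec L hnL
  have hds : ∀ d ∈ ds, d ∉ top L := by
    intro d hd h
    exact (List.nodup_append.mp hnod).2.2 d (top_subset L d h) d hd rfl
  have hmem : ∀ x, x ∈ labs (L ++ leafs ds) → x < a := by
    intro x hx
    rw [hlab] at hx
    exact List.mem_range.mp hx
  have hanch : Anchored (build (L ++ leafs ds)) (top L) := by
    refine ⟨fun x hx => ?_, fun x hx => ?_, fun p s c h hc => ?_⟩
    · rw [inorder_build, labs_append]
      exact List.mem_append_left _ (top_subset L x hx)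
    · rcases L with _ | ⟨⟨cs, t⟩, L⟩
      · exact absurd rfl hL
      · simp only [List.cons_append, build, BT.root, Option.mem_def, Option.some.injEq] at hx
        rw [← hx]
        exact (hspec cs t (by simp)).1
    · exact closed_build (top L) L ds hspec hds p c s h hc
  have hfl : flarb (top L) (build (L ++ leafs ds)) a = build (shed L ++ [(ds, a)]) :=
    rearr_build (top L) L ds a hspec hds
  have hstep := FlarbSeq.step (top L) h hanch
  rw [hfl] at hstep
  refine ⟨_, ?_, hstep⟩
  have hcost : 1 + act L ≤ cost (build (L ++ leafs ds)) (build (shed L ++ [(ds, a)])) := by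
    obtain ⟨x, hx⟩ := gained (shed L) (shed_ne_nil L hL) ds a
    have hsub : insert (x, true, a) (lost L) ⊆
        symmDiff (build (L ++ leafs ds)).edges (build (shed L ++ [(ds, a)])).edges := by
      intro e he
      rw [Finset.mem_symmDiff]
      rcases Finset.mem_insert.mp he with rfl | he
      · right
        refine ⟨hx, fun h => ?_⟩
        have := (edges_mem _ _ _ _ h).2
        rw [inorder_build] at this
        exact absurd (hmem a this) (lt_irrefl _)
      · left
        obtain ⟨c, t, cs, rfl, hcs⟩ := mem_lost L e he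
        refine ⟨?_, fun h => ?_⟩
        · rw [left_edges_build]
          exact ⟨cs, List.mem_append_left _ hcs⟩
        · rw [left_edges_build] at h
          obtain ⟨cs'', h⟩ := h
          rcases List.mem_append.mp h with h | h
          · exact shed_lost L hnL c t cs cs'' hcs h
          · rw [List.mem_singleton] at h
            have ht : t = a := (Prod.mk.inj h).2
            have : t ∈ labs (L ++ leafs ds) := by
              rw [labs_append]
              exact List.mem_append_left _ (fst_snd_mem_labs hcs).2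
            exact absurd (hmem t this) (by omega)
    have hcard := Finset.card_le_card hsub
    rw [Finset.card_insert_of_notMem, card_lost L hnL] at hcard
    · unfold cost; omega
    · intro h
      obtain ⟨c, t, cs, h1, -⟩ := mem_lost L _ h
      simp at h1
  omega


/-- Iterated shedding. -/
def A (L : List (List ℕ × ℕ)) (N : ℕ) : ℕ := ∑ i ∈ Finset.range N, act (shed^[i] L)

theorem shed_iter_append (L L' : List (List ℕ × ℕ)) (n : ℕ) :
    shed^[n] (L ++ L') = shed^[n] L ++ shed^[n] L' := by
  induction n generalizing L L' with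
  | zero => rfl
  | succ n ih => rw [Function.iterate_succ_apply, shed_append, ih]; rfl

theorem labs_iter (L : List (List ℕ × ℕ)) (n : ℕ) : labs (shed^[n] L) = labs L := by
  induction n generalizing L with
  | zero => rfl
  | succ n ih => rw [Function.iterate_succ_apply, ih, labs_shed]

theorem A_append (L L' : List (List ℕ × ℕ)) (N : ℕ) : A (L ++ L') N = A L N + A L' N := by
  unfold A
  rw [← Finset.sum_add_distrib]
  refine Finset.sum_congr rfl fun i _ => ?_
  rw [shed_iter_append, act_append]

theorem A_add (L : List (List ℕ × ℕ)) (M N : ℕ) : A L (M + N) = A L M + A (shed^[M] L) N := by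
  unfold A
  rw [Finset.sum_range_add]
  congr 1
  refine Finset.sum_congr rfl fun i _ => ?_
  rw [← Function.iterate_add_apply, Nat.add_comm i M]

theorem A_single (cs : List ℕ) (t : ℕ) : A [(cs, t)] cs.length = cs.length ∧
    shed^[cs.length] [(cs, t)] = leafs (cs ++ [t]) := by
  induction cs with
  | nil => exact ⟨rfl, rfl⟩
  | cons c cs ih =>
    have h1 : ∀ n, shed^[n] [([], c)] = [([], c)] := by
      intro n
      induction n with
      | zero => rfl
      | succ n ih' => rw [Function.iterate_succ_apply]; exact ih'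
    have h2 : ∀ n, shed^[n + 1] [(c :: cs, t)] = ([], c) :: shed^[n] [(cs, t)] := by
      intro n
      rw [Function.iterate_succ_apply]
      show shed^[n] ([([], c)] ++ [(cs, t)]) = _
      rw [shed_iter_append, h1]
      rfl
    constructor
    · rw [List.length_cons]
      unfold A at ih ⊢
      rw [Finset.sum_range_succ']
      have h3 : ∀ i, act (shed^[i + 1] [(c :: cs, t)]) = act (shed^[i] [(cs, t)]) := by
        intro i
        rw [h2]
        rfl
      simp only [h3, ih.1]
      rfl
    · rw [List.length_cons, h2, ih.2]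
      rfl

theorem leafs_append (ds ds' : List ℕ) : leafs (ds ++ ds') = leafs ds ++ leafs ds' := by
  simp [leafs]

theorem range_append_range' (a N : ℕ) : List.range a ++ List.range' a N = List.range (a + N) := by
  rw [List.range_eq_range', List.range_eq_range']
  have := @List.range'_append_1 0 a N
  rw [Nat.zero_add] at this
  exact this

/-- The recursive schedule of `2 ^ j - 1` flarbs (the number `N + 1` is `2 ^ j`). -/
theorem schedule (j : ℕ) : ∀ (N : ℕ), N + 1 = 2 ^ j → ∀ (L : List (List ℕ × ℕ)) (a c : ℕ),
    labs L = List.range a → L ≠ [] → FlarbSeq a (build L) c →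
    ∃ c', 2 * c + 2 * A L N + j * 2 ^ j ≤ 2 * c' ∧
      FlarbSeq (a + N) (build (shed^[N] L ++ leafs (List.range' a N))) c' := by
  induction j with
  | zero =>
    intro N hN L a c hlab hL h
    have : N = 0 := by simpa using hN
    subst this
    refine ⟨c, by simp [A], ?_⟩
    simpa [leafs] using h
  | succ j ih =>
    intro N' hN' L a c hlab hL h
    obtain ⟨N, hN⟩ : ∃ N, N + 1 = 2 ^ j := ⟨2 ^ j - 1, Nat.sub_add_cancel (Nat.one_le_two_pow)⟩
    have hNN : N' = N + 1 + N := by rw [pow_succ] at hN'; omega
    subst hNN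
    obtain ⟨c₁, hc₁, h₁⟩ := ih N hN L a c hlab hL h
    have hlab₁ : labs (shed^[N] L ++ leafs (List.range' a N)) = List.range (a + N) := by
      rw [labs_append, labs_iter, labs_leafs, hlab, range_append_range']
    have hne : shed^[N] L ≠ [] := by
      intro e
      have h1 := labs_iter L N
      rw [e, hlab] at h1
      have ha : a = 0 := by
        have := congrArg List.length h1
        simpa [labs] using this.symm
      rcases L with _ | ⟨⟨cs, t⟩, L⟩
      · exact hL rfl
      · rw [ha] at hlab
        simp [labs] at hlab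
    obtain ⟨c₂, hc₂, h₂⟩ := step_lemma _ _ _ _ hlab₁ hne h₁
    have e₂ : shed (shed^[N] L) = shed^[N + 1] L := (Function.iterate_succ_apply' shed N L).symm
    rw [e₂] at h₂
    have hlab₂ : labs (shed^[N + 1] L ++ [(List.range' a N, a + N)]) = List.range (a + N + 1) := by
      rw [labs_append, labs_iter, hlab, List.range_succ, ← range_append_range', List.append_assoc]
      rfl
    obtain ⟨c₃, hc₃, h₃⟩ := ih N hN _ _ _ hlab₂ (by simp) h₂
    have hlen : (List.range' a N).length = N := List.length_range'
    obtain ⟨hs1, hs2⟩ := A_single (List.range' a N) (a + N)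
    rw [hlen] at hs1 hs2
    refine ⟨c₃, ?_, ?_⟩
    · rw [A_append, hs1] at hc₃
      have e1 : A L (N + 1 + N) = A L N + act (shed^[N] L) + A (shed^[N + 1] L) N := by
        rw [A_add]
        congr 1
        unfold A
        rw [Finset.sum_range_succ]
      rw [e1]
      have e2 : (j + 1) * 2 ^ (j + 1) = 2 * (j * 2 ^ j) + 2 * (N + 1) := by
        rw [pow_succ, hN]; ring
      rw [e2]
      omega
    · rw [shed_iter_append, hs2, ← Function.iterate_add_apply, List.append_assoc, ← leafs_append] at h₃
      have e3 : List.range' a N ++ [a + N] ++ List.range' (a + N + 1) N =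
          List.range' a (N + 1 + N) := by
        have h1 : List.range' a N ++ [a + N] = List.range' a (N + 1) := by
          rw [List.range'_concat]; simp
        rw [h1]
        have := @List.range'_append_1 a (N + 1) N
        rw [← this]
        congr 1
      rw [e3] at h₃
      have e4 : N + (N + 1) = N + 1 + N := by omega
      have e5 : a + N + 1 + N = a + (N + 1 + N) := by omega
      rw [e4, e5] at h₃
      exact h₃

/-- Every tree admits a flarb. -/
theorem extend (n : ℕ) (T : BT) (c : ℕ) (h : FlarbSeq n T c) : ∃ T' c', c ≤ c' ∧ FlarbSeq (n + 1) T' c' := by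
  refine ⟨_, _, Nat.le_add_right _ _, FlarbSeq.step T.inorder.toFinset h ⟨fun x hx => ?_, fun x hx => ?_, fun p s c h _ => ?_⟩⟩
  · exact List.mem_toFinset.mp hx
  · exact List.mem_toFinset.mpr (root_mem _ _ hx)
  · exact List.mem_toFinset.mpr (edges_mem _ _ _ _ h).1

theorem extend_many (m n : ℕ) (T : BT) (c : ℕ) (h : FlarbSeq n T c) :
    ∃ T' c', c ≤ c' ∧ FlarbSeq (n + m) T' c' := by
  induction m with
  | zero => exact ⟨T, c, le_rfl, h⟩
  | succ m ih =>
    obtain ⟨T', c', h1, h2⟩ := ih
    obtain ⟨T'', c'', h3, h4⟩ := extend _ _ _ h2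
    exact ⟨T'', c'', h1.trans h3, h4⟩

theorem pow_bound (j : ℕ) : ∃ T c, j * 2 ^ j ≤ 2 * c ∧ FlarbSeq (2 ^ j) T c := by
  have h0 : FlarbSeq 1 (build [([], 0)]) 0 := by
    have h : Anchored BT.nil ∅ := by
      refine ⟨by simp, by simp [BT.root], fun p s c h => by simp [BT.edges] at h⟩
    have := FlarbSeq.step ∅ FlarbSeq.empty h
    exact this
  obtain ⟨N, hN⟩ : ∃ N, N + 1 = 2 ^ j := ⟨2 ^ j - 1, Nat.sub_add_cancel (Nat.one_le_two_pow)⟩
  obtain ⟨c', hc', h'⟩ := schedule j N hN [([], 0)] 1 0 (by simp [labs]) (by simp) h0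
  refine ⟨build (shed^[N] [([], 0)] ++ leafs (List.range' 1 N)), c', by omega, ?_⟩
  rw [← hN, Nat.add_comm]
  exact h'

/-- **Lower bound.** For every `n ≥ 2` there is a sequence of `n` flarbs starting from the empty
tree whose total cost is at least `(n log₂ n) / 8`. -/
theorem result (n : ℕ) (hn : 2 ≤ n) :
    ∃ (T : BT) (c : ℕ), FlarbSeq n T c ∧ (n : ℝ) * Real.logb 2 n / 8 ≤ c := by
  set j := Nat.log 2 n with hj
  have h1 : 2 ^ j ≤ n := Nat.pow_log_le_self 2 (by omega)
  have h2 : n < 2 ^ (j + 1) := Nat.lt_pow_succ_log_self (by norm_num) n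
  have hj1 : 1 ≤ j := Nat.log_pos (by norm_num) hn
  obtain ⟨T, c, hc, h⟩ := pow_bound j
  obtain ⟨T', c', hc', h'⟩ := extend_many (n - 2 ^ j) _ _ _ h
  rw [Nat.add_sub_cancel' h1] at h'
  refine ⟨T', c', h', ?_⟩
  have hlog : Real.logb 2 n ≤ j + 1 := by
    rw [Real.logb_le_iff_le_rpow (by norm_num) (by positivity)]
    have : (n : ℝ) ≤ ((2 ^ (j + 1) : ℕ) : ℝ) := by exact_mod_cast h2.le
    refine this.trans (le_of_eq ?_)
    push_cast
    rw [← Real.rpow_natCast]
    push_cast
    rfl
  have hn0 : (0 : ℝ) ≤ n := by positivity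
  have hlog0 : (n : ℝ) * Real.logb 2 n ≤ (2 ^ (j + 1) : ℝ) * (j + 1) := by
    have h3 : (n : ℝ) ≤ (2 ^ (j + 1) : ℝ) := by exact_mod_cast h2.le
    have h4 : (0 : ℝ) ≤ (j : ℝ) + 1 := by positivity
    calc (n : ℝ) * Real.logb 2 n ≤ n * (j + 1) := mul_le_mul_of_nonneg_left hlog hn0
      _ ≤ (2 ^ (j + 1) : ℝ) * (j + 1) := mul_le_mul_of_nonneg_right h3 h4
  have h5 : (j : ℝ) * 2 ^ j ≤ 2 * c' := by
    have : j * 2 ^ j ≤ 2 * c' := by omega
    exact_mod_cast this
  have h6 : (1 : ℝ) ≤ j := by exact_mod_cast hj1
  have h7 : (0 : ℝ) ≤ 2 ^ j := by positivity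
  have h8 : (2 ^ (j + 1) : ℝ) * (j + 1) ≤ 4 * (j * 2 ^ j) := by
    rw [pow_succ]
    nlinarith
  linarith

end Pool.Agent.Results.MP_5c307f_lc.FlarbLowerBound
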